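import Pool.Agent.L7h62.SQ.Stm

set_option autoImplicit false

/-!
# Project SQ (helper62): IDX
-/

namespace Pool.Agent.L7h26.SQ

open Pool.Agent.L7h62.SQ

theorem s_IDX : S_IDX := by
  classical
  intro U _ ι _ _ s hs z hz h1 hz2 hfin hcard u v hu hv
  by_contra hcon
  push Not at hcon
  obtain ⟨hU, hV, hUV⟩ := hcon
  have := Fintype.ofFinite (s.ker ⧸ (powMonoidHom 2 : s.ker →* s.ker).range)
  -- the three classes
  set W : Fin 3 → U := ![1, u, v] with hW
  have hWs : ∀ i, s (W i) = 1 := by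
    intro i; fin_cases i <;> simp [hW, hu, hv]
  have hWd : ∀ (i j : Fin 3) (y : U), W j = W i * y ^ 2 → i = j := by
    intro i j y h
    fin_cases i <;> fin_cases j <;> simp [hW] at h ⊢
    · exact hU y h.symm
    · exact hV y h.symm
    · refine hU y⁻¹ ?_
      rw [inv_pow]; exact (eq_inv_of_mul_eq_one_left h.symm).symm
    · refine hUV (u * y) ?_
      rw [h, mul_pow]
      rw [pow_two u]; exact mul_assoc _ _ _
    · refine hV y⁻¹ ?_
      rw [inv_pow]; exact (eq_inv_of_mul_eq_one_left h.symm).symm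
    · refine hUV (v * y) ?_
      rw [h, mul_pow, pow_two v, mul_assoc]
      exact mul_comm _ _
  have hsq : ∀ x : U, s (x ^ 2) = 1 := by
    intro x
    rw [map_pow]
    funext i
    rw [Pi.pow_apply, Pi.one_apply]
    exact Int.units_sq _
  obtain ⟨r, hr⟩ := hs.hasRightInverse
  let g : (ι → ℤˣ) × Fin 3 → s.ker ⧸ (powMonoidHom 2 : s.ker →* s.ker).range := fun e =>
    QuotientGroup.mk ⟨W e.2 * (r e.1) ^ 2, by rw [MonoidHom.mem_ker, map_mul, hWs, hsq, one_mul]⟩
  have hg : ∀ e e' : (ι → ℤˣ) × Fin 3, g e = g e' → e' = e ∨ e' = (s z * e.1, e.2) := by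
    intro e e' h
    have h2 := QuotientGroup.eq.1 h
    obtain ⟨p, hp⟩ := h2
    have hp' : (p : U) ^ 2 = (W e.2 * (r e.1) ^ 2)⁻¹ * (W e'.2 * (r e'.1) ^ 2) :=
      congrArg Subtype.val hp
    have hp3 : W e'.2 = W e.2 * (r e.1 * p * (r e'.1)⁻¹) ^ 2 := by
      rw [mul_pow, mul_pow, hp', inv_pow]
      rw [mul_inv]
      have a1 : (r e.1 ^ 2) * (r e.1 ^ 2)⁻¹ = 1 := mul_inv_cancel _
      have a2 : (r e'.1 ^ 2) * (r e'.1 ^ 2)⁻¹ = 1 := mul_inv_cancel _
      have a3 : W e.2 * (W e.2)⁻¹ = 1 := mul_inv_cancel _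
      calc W e'.2 = W e'.2 * (W e.2 * (W e.2)⁻¹) * ((r e.1 ^ 2) * (r e.1 ^ 2)⁻¹) *
            ((r e'.1 ^ 2) * (r e'.1 ^ 2)⁻¹) := by rw [a1, a2, a3]; simp
        _ = _ := by
            generalize (W e.2)⁻¹ = w
            generalize (r e.1 ^ 2)⁻¹ = w1
            generalize (r e'.1 ^ 2)⁻¹ = w2
            simp only [mul_assoc, mul_comm, mul_left_comm]
    have hi : e.2 = e'.2 := hWd _ _ _ hp3
    rw [hi] at hp3
    have h4 : (r e.1 * p * (r e'.1)⁻¹) ^ 2 = 1 := by
      have := hp3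
      exact (mul_eq_left.1 this.symm)
    have hps : s (p : U) = 1 := p.2
    rcases h1 _ h4 with h5 | h5
    · left
      have h6 : s (r e.1) * s (p : U) * (s (r e'.1))⁻¹ = 1 := by
        rw [← map_inv, ← map_mul, ← map_mul, h5, map_one]
      rw [hps, mul_one, hr, hr] at h6
      exact Prod.ext (mul_inv_eq_one.1 h6).symm hi.symm
    · right
      have h6 : s (r e.1) * s (p : U) * (s (r e'.1))⁻¹ = s z := by
        rw [← map_inv, ← map_mul, ← map_mul, h5]
      rw [hps, mul_one, hr, hr] at h6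
      refine Prod.ext ?_ hi.symm
      have h7 : s z * s z = 1 := by
        rw [← map_mul, ← pow_two, hz2, map_one]
      show e'.1 = s z * e.1
      have h8 : e.1 = s z * e'.1 := by rw [← h6]; simp
      rw [h8, ← mul_assoc, h7, one_mul]
  have key := Finset.card_le_mul_card_image (f := g) Finset.univ 2 (by
    intro a ha
    obtain ⟨e, -, rfl⟩ := Finset.mem_image.1 ha
    have hsub : (Finset.univ.filter fun x => g x = g e) ⊆ {e, (s z * e.1, e.2)} := by
      intro x hx
      rw [Finset.mem_filter] at hx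
      rcases hg e x hx.2.symm with h | h
      · simp [h]
      · simp [h]
    exact (Finset.card_le_card hsub).trans Finset.card_le_two)
  have h2 : (Finset.univ.image g).card ≤ 2 ^ Fintype.card ι :=
    (Finset.card_le_univ _).trans (by rw [← Nat.card_eq_fintype_card]; exact hcard)
  have h3 : (Finset.univ : Finset ((ι → ℤˣ) × Fin 3)).card = 2 ^ Fintype.card ι * 3 := by
    rw [Finset.card_univ, Fintype.card_prod, Fintype.card_fin, Fintype.card_fun]
    simp
  rw [h3] at key
  have h4 : 0 < 2 ^ Fintype.card ι := by positivity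
  omega

end Pool.Agent.L7h26.SQ
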